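import Pool.Agent.Helper81.Tok2.Goals

/-!
# The procedures of the simulation of a token machine with free silent steps

The statements `AGREE_stmt`, `PROC_stmt` and `FINAL_stmt` of `Helper81/Tok2/Goals.lean` (adapted from
`Helper4/Tok/PROC.lean`).
-/

namespace Pool.Agent.Helper16.Tok2

open Pool.Agent.Helper65.LinSpace Pool.Agent.Helper28.Ram Finset
open Pool.Agent.Helper28.Ram.Mach (sgz)

variable {m : Pool.Agent.Helper81.Tok2.Mach} {p : ℕ} {l : ℕ}
  {s t u : Pool.Agent.Helper81.Tok2.Mach.St p}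

theorem agree_refl (s : Pool.Agent.Helper81.Tok2.Mach.St p) : m.Agree l s s :=
  ⟨rfl, fun _ _ => ⟨rfl, rfl, rfl⟩, fun _ _ => ⟨rfl, rfl, rfl, rfl, rfl⟩⟩

theorem agree_trans (h : m.Agree l s t) (h' : m.Agree l t u) : m.Agree l s u := by
  obtain ⟨a1, a2, a3⟩ := h
  obtain ⟨b1, b2, b3⟩ := h'
  refine ⟨a1.trans b1, fun k hk => ?_, fun k hk => ?_⟩
  · obtain ⟨c1, c2, c3⟩ := a2 k hk
    obtain ⟨d1, d2, d3⟩ := b2 k hk
    exact ⟨c1.trans d1, c2.trans d2, c3.trans d3⟩
  · obtain ⟨c1, c2, c3, c4, c5⟩ := a3 k hk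
    obtain ⟨d1, d2, d3, d4, d5⟩ := b3 k hk
    exact ⟨c1.trans d1, c2.trans d2, c3.trans d3, c4.trans d4, c5.trans d5⟩

theorem agree_call (h : m.Agree l s t) (c i g : ℕ) :
    m.Agree l (s.call l c i g) (t.call l c i g) := by
  obtain ⟨a1, a2, a3⟩ := h
  refine ⟨a1, fun k hk => ?_, fun k hk => a3 k hk⟩
  obtain ⟨c1, c2, c3⟩ := a2 k hk
  by_cases hkl : k = l
  · subst hkl
    simp [Pool.Agent.Helper81.Tok2.Mach.St.call]
  · simp [Pool.Agent.Helper81.Tok2.Mach.St.call, Function.update_of_ne hkl, c1, c2, c3]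

theorem agree_R (h : m.Agree l s t) (R : ℕ → ZMod p) :
    m.Agree l { s with R := R } { t with R := R } :=
  ⟨rfl, fun k hk => h.2.1 k hk, fun k hk => h.2.2 k hk⟩

theorem agree_qa (h : m.Agree l s t) (k : ℕ) (x) :
    m.Agree l
      { s with qa := Function.update s.qa k x }
      { t with qa := Function.update t.qa k x } := by
  refine ⟨h.1, fun k' hk => h.2.1 k' hk, fun k' hk => ?_⟩
  obtain ⟨c1, c2, c3, c4, c5⟩ := h.2.2 k' hk
  by_cases hkl : k' = k
  · subst hkl
    simp [c2, c3, c4, c5]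
  · simp [Function.update_of_ne hkl, c1, c2, c3, c4, c5]

theorem agree_ac (h : m.Agree l s t) (k : ℕ) (x) :
    m.Agree l
      { s with ac := Function.update s.ac k x }
      { t with ac := Function.update t.ac k x } := by
  refine ⟨h.1, fun k' hk => h.2.1 k' hk, fun k' hk => ?_⟩
  obtain ⟨c1, c2, c3, c4, c5⟩ := h.2.2 k' hk
  by_cases hkl : k' = k
  · subst hkl
    simp [c1, c3, c4, c5]
  · simp [Function.update_of_ne hkl, c1, c2, c3, c4, c5]

theorem agree_au (h : m.Agree l s t) (k : ℕ) (x) :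
    m.Agree l
      { s with au := Function.update s.au k x }
      { t with au := Function.update t.au k x } := by
  refine ⟨h.1, fun k' hk => h.2.1 k' hk, fun k' hk => ?_⟩
  obtain ⟨c1, c2, c3, c4, c5⟩ := h.2.2 k' hk
  by_cases hkl : k' = k
  · subst hkl
    simp [c1, c2, c4, c5]
  · simp [Function.update_of_ne hkl, c1, c2, c3, c4, c5]

theorem agree_fold (h : m.Agree l s t) (k w : ℕ) (c : ZMod p)
    (hk : l ≤ k * (m.G + 2)) : m.Agree l (m.fold k w c s) (m.fold k w c t) := by
  obtain ⟨e1, e2, e3, e4, e5⟩ := h.2.2 k hk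
  refine ⟨h.1, fun k' hk' => h.2.1 k' hk', fun k' hk' => ?_⟩
  obtain ⟨c1, c2, c3, c4, c5⟩ := h.2.2 k' hk'
  by_cases hkl : k' = k
  · subst hkl
    simp [Pool.Agent.Helper81.Tok2.Mach.fold, c1, c2, c3, c4, c5]
  · simp [Pool.Agent.Helper81.Tok2.Mach.fold, Function.update_of_ne hkl, c1, c2, c3, c4, c5]

theorem AGREE : Pool.Agent.Helper81.Tok2.AGREE_stmt := by
  intro m p _ l s t h
  obtain ⟨c1, c2, c3⟩ := h.2.1 (l + 1) (by omega)
  have hR := h.1
  have h2 : 0 < m.G + 2 := by omega
  have hq : s.qa (l / (m.G + 2) + 1) = t.qa (l / (m.G + 2) + 1) := by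
    refine (h.2.2 (l / (m.G + 2) + 1) ?_).1
    have := Nat.div_add_mod l (m.G + 2)
    have := Nat.mod_lt l h2
    rw [Nat.add_mul, Nat.one_mul, Nat.mul_comm]
    omega
  refine ⟨fun j => ?_, ?_, ?_⟩
  · unfold Pool.Agent.Helper81.Tok2.Mach.op
    split_ifs with hl
    · have hle : l ≤ l / (m.G + 2) * (m.G + 2) := by
        have := Nat.div_add_mod l (m.G + 2)
        rw [Nat.mul_comm]
        omega
      obtain ⟨d1, d2, d3, d4, d5⟩ := h.2.2 _ hle
      unfold Pool.Agent.Helper81.Tok2.Mach.opE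
      rw [c1, c2]
      split_ifs
      · unfold Pool.Agent.Helper81.Tok2.Mach.opY
        rw [c2, c3, hR, d2, d3]
        split_ifs
        all_goals first
          | exact agree_call (agree_R h _) _ _ _
          | exact agree_call (agree_qa (agree_au (agree_ac (agree_R h _) _ _) _ _) _ _) _ _ _
          | exact agree_call (agree_au (agree_R h _) _ _) _ _ _
          | exact agree_call (agree_fold (agree_R h _) _ _ _ hle) _ _ _
      · unfold Pool.Agent.Helper81.Tok2.Mach.opZ
        rw [c3, hR, hq]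
        split_ifs
        all_goals first
          | exact agree_call (agree_R h _) _ _ _
          | exact agree_call (agree_qa (agree_R h _) _ _) _ _ _
      · exact agree_call h _ _ _
    · unfold Pool.Agent.Helper81.Tok2.Mach.opN
      rw [c1, c2, c3, hR]
      split_ifs
      all_goals first
        | exact agree_call h _ _ _
        | exact agree_call (agree_R h _) _ _ _
  · cases l with
    | zero =>
      obtain ⟨e1, e2, e3⟩ := h.2.1 0 le_rfl
      obtain ⟨d1, d2, d3, d4, d5⟩ := h.2.2 0 (by omega)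
      simp only [Pool.Agent.Helper81.Tok2.Mach.ideal]
      rw [e1, e3, d1, hR]
      split_ifs
      · exact agree_R h _
      · exact h
    | succ l =>
      obtain ⟨e1, e2, e3⟩ := h.2.1 (l + 1) le_rfl
      have hq' : s.qa (l / (m.G + 2) + 1) = t.qa (l / (m.G + 2) + 1) := by
        refine (h.2.2 (l / (m.G + 2) + 1) ?_).1
        have := Nat.div_add_mod l (m.G + 2)
        have := Nat.mod_lt l h2
        rw [Nat.add_mul, Nat.one_mul, Nat.mul_comm]
        omega
      simp only [Pool.Agent.Helper81.Tok2.Mach.ideal]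
      rw [e1, e2, e3, hq', hR]
      split_ifs
      · exact agree_R h _
      · exact agree_R h _
      · exact h
  · exact ⟨h.1, fun k hk => h.2.1 k (by omega), fun k hk => h.2.2 k (by omega)⟩

theorem PROC (h1 : Pool.Agent.Helper81.Tok2.ELEV_stmt)
    (h2 : Pool.Agent.Helper81.Tok2.NLEV_stmt) (_h3 : Pool.Agent.Helper81.Tok2.AGREE_stmt) :
    Pool.Agent.Helper81.Tok2.PROC_stmt := by
  intro m p _ hm hlt l
  induction l with
  | zero =>
    intro s
    have h0 : m.conf (0 * (m.G * m.b)) = (m.q0, m.M0) := by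
      rw [Nat.zero_mul]
      rfl
    have : m.proc 0 s = m.ideal 0 s := by
      show m.op0 s = _
      simp only [Pool.Agent.Helper81.Tok2.Mach.op0, Pool.Agent.Helper81.Tok2.Mach.ideal,
        Pool.Agent.Helper81.Tok2.Mach.T, Pool.Agent.Helper81.Tok2.Mach.tn, h0]
    rw [this]
    exact agree_refl _
  | succ l ih =>
    intro s
    have key : ∀ n, m.Agree l (iter (fun j s => m.proc l (m.op l j s)) n s)
        (iter (fun j s => m.ideal l (m.op l j s)) n s) := by
      intro n
      induction n with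
      | zero => exact agree_refl _
      | succ n ihn =>
        show m.Agree l (m.proc l (m.op l n (iter (fun j s => m.proc l (m.op l j s)) n s)))
          (m.ideal l (m.op l n (iter (fun j s => m.ideal l (m.op l j s)) n s)))
        exact agree_trans (ih _) (AGREE m p l _ _ ((AGREE m p l _ _ ihn).1 n)).2.1
    have h1' : m.Agree (l + 1) (m.proc (l + 1) s)
        (iter (fun j s => m.ideal l (m.op l j s)) (m.cnt p l) s) :=
      (AGREE m p l _ _ (key (m.cnt p l))).2.2
    by_cases hl : l % (m.G + 2) = 0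
    · exact agree_trans h1' (h1 m p hm hlt l hl s)
    · exact agree_trans h1' (h2 m p hm hlt l hl s)

theorem FINAL (h : Pool.Agent.Helper81.Tok2.PROC_stmt) :
    Pool.Agent.Helper81.Tok2.FINAL_stmt := by
  intro m p _ hm hlt K o ho
  rw [(h m p hm hlt (K * (m.G + 2)) (m.st0 p (K * (m.G + 2)))).1]
  cases K with
  | zero =>
    have h0 : 0 * (m.G + 2) = 0 := Nat.zero_mul _
    rw [h0]
    simp [Pool.Agent.Helper81.Tok2.Mach.ideal, Pool.Agent.Helper81.Tok2.Mach.st0,
      Pool.Agent.Helper81.Tok2.Mach.St.call, Pool.Agent.Helper81.Tok2.Mach.addR, sgz, ho]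
  | succ K =>
    have h0 : (K + 1) * (m.G + 2) = (K * (m.G + 2) + (m.G + 1)) + 1 := by ring
    have hd : (K * (m.G + 2) + (m.G + 1)) / (m.G + 2) = K := by
      rw [Nat.mul_comm, Nat.mul_add_div (by omega), Nat.div_eq_of_lt (by omega)]
      rfl
    have hr : (K * (m.G + 2) + (m.G + 1)) % (m.G + 2) = m.G + 1 := by
      rw [Nat.mul_comm, Nat.mul_add_mod, Nat.mod_eq_of_lt (by omega)]
    rw [h0]
    simp only [Pool.Agent.Helper81.Tok2.Mach.ideal, hd, hr]
    simp [Pool.Agent.Helper81.Tok2.Mach.st0,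
      Pool.Agent.Helper81.Tok2.Mach.St.call, Pool.Agent.Helper81.Tok2.Mach.addR, sgz, ho,
      Pool.Agent.Helper81.Tok2.Mach.V, Pool.Agent.Helper81.Tok2.Mach.vn,
      Pool.Agent.Helper81.Tok2.Mach.T, Pool.Agent.Helper81.Tok2.Mach.lo,
      Pool.Agent.Helper81.Tok2.Mach.ln]

end Pool.Agent.Helper16.Tok2
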